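import Mathlib
import Pool.Agent.Helper76.Sel.Geom

set_option autoImplicit false

/-!
# MP_9e4c5e_co: colorful homogeneous selection with volume for `d + 1` color classes

Full positive answer to Q1: `d + 1` color classes suffice.
-/

namespace Pool.Agent.Results.MP_9e4c5e_co.ColorfulSelection

open MeasureTheory Pool.Agent.Helper76.Sel

/-- a convex set of volume one contains a compact set of volume in `(1/2, 1]`. -/
theorem inner_compact {d : ℕ} (K : Set (Fin d → ℝ)) (hK : Convex ℝ K) (hv : volume K = 1) :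
    ∃ U : Set (Fin d → ℝ), U ⊆ K ∧ IsCompact U ∧ 1 / 2 < volume U ∧ volume U ≤ 1 := by
  have h1 : volume (frontier K) = 0 := hK.addHaar_frontier volume
  have h2 : 1 ≤ volume (interior K) := by
    rw [← hv]
    calc volume K ≤ volume (interior K ∪ frontier K) := by
          refine measure_mono ?_
          rw [← closure_eq_interior_union_frontier]
          exact subset_closure
      _ ≤ volume (interior K) + volume (frontier K) := measure_union_le _ _
      _ = volume (interior K) := by rw [h1, add_zero]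
  have h3 : (1 / 2 : ENNReal) < volume (interior K) := by
    refine lt_of_lt_of_le ?_ h2
    exact ENNReal.half_lt_self one_ne_zero ENNReal.one_ne_top
  obtain ⟨U, hU, hUc, hUv⟩ := isOpen_interior.exists_lt_isCompact h3
  refine ⟨U, hU.trans interior_subset, hUc, hUv, ?_⟩
  rw [← hv]
  exact measure_mono (hU.trans interior_subset)

/-- The selection theorem for indexed families (members may repeat). -/
theorem indexed (d : ℕ) : ∃ c v : ℝ, ∃ N : ℕ, 0 < c ∧ 0 < v ∧ ∀ n : ℕ, N ≤ n →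
    ∀ F : Fin (d + 1) → Fin n → Set (Fin d → ℝ), (∀ i j, Convex ℝ (F i j) ∧ volume (F i j) = 1) →
    ∃ G : Fin (d + 1) → Finset (Fin n), (∀ i, c * n ≤ (G i).card) ∧
      ∃ E : Set (Fin d → ℝ), MeasurableSet E ∧ ENNReal.ofReal v ≤ volume E ∧
        ∀ j : Fin (d + 1) → Fin n, (∀ i, j i ∈ G i) → E ⊆ convexHull ℝ (⋃ i, F i (j i)) := by
  obtain ⟨r, δ, hr, hδ, hsel⟩ := select d
  obtain ⟨ε, v, hε, hv, hgeom⟩ := geom d r δ hr hδ
  obtain ⟨c, hc, hc'⟩ := hsel ε hε
  refine ⟨c, v, 1, hc, hv, fun n hn F hF => ?_⟩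
  choose U hUF hUc hU1 hU2 using fun i j => inner_compact (F i j) (hF i j).1 (hF i j).2
  obtain ⟨g, hg, x, hxr, hdet, G, hG, hGx⟩ := hc' n hn U hUc hU1 hU2
  obtain ⟨E, hEm, hEv, hE⟩ := hgeom g hg x hxr hdet
  refine ⟨G, hG, E, hEm, hEv, fun j hj => ?_⟩
  choose x' hx'U hx'r hx'd using fun i => hGx i (j i) (hj i)
  refine (hE x' hx'r hx'd).trans (convexHull_mono ?_)
  rintro _ ⟨i, rfl⟩
  exact Set.mem_iUnion.mpr ⟨i, hUF i (j i) (hx'U i)⟩

/-- **Colorful homogeneous selection with volume for `d + 1` color classes.**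
First part: the families are finite sets of volume-one convex sets.  Second part: the families are
indexed by `Fin n`, so members may be repeated. -/
theorem result : ∀ d : ℕ, 1 ≤ d → ∃ c v : ℝ, ∃ N : ℕ, 0 < c ∧ 0 < v ∧ ∀ n : ℕ, N ≤ n →
    (∀ F : Fin (d + 1) → Finset (Set (Fin d → ℝ)), (∀ i, (F i).card = n) →
      (∀ i, ∀ K ∈ F i, Convex ℝ K ∧ volume K = 1) →
      ∃ F' : Fin (d + 1) → Finset (Set (Fin d → ℝ)), (∀ i, F' i ⊆ F i) ∧ (∀ i, c * n ≤ (F' i).card) ∧
        ∃ E : Set (Fin d → ℝ), MeasurableSet E ∧ ENNReal.ofReal v ≤ volume E ∧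
          ∀ K : Fin (d + 1) → Set (Fin d → ℝ), (∀ i, K i ∈ F' i) → E ⊆ convexHull ℝ (⋃ i, K i)) ∧
    (∀ F : Fin (d + 1) → Fin n → Set (Fin d → ℝ), (∀ i j, Convex ℝ (F i j) ∧ volume (F i j) = 1) →
      ∃ G : Fin (d + 1) → Finset (Fin n), (∀ i, c * n ≤ (G i).card) ∧
        ∃ E : Set (Fin d → ℝ), MeasurableSet E ∧ ENNReal.ofReal v ≤ volume E ∧
          ∀ j : Fin (d + 1) → Fin n, (∀ i, j i ∈ G i) → E ⊆ convexHull ℝ (⋃ i, F i (j i))) := by
  classical
  intro d _
  obtain ⟨c, v, N, hc, hv, h⟩ := indexed d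
  refine ⟨c, v, N, hc, hv, fun n hn => ⟨fun F hF hconv => ?_, h n hn⟩⟩
  -- enumerate the families
  let e : ∀ i, Fin n ≃ {K // K ∈ F i} := fun i => ((F i).equivFinOfCardEq (hF i)).symm
  obtain ⟨G, hG, E, hEm, hEv, hE⟩ := h n hn (fun i j => (e i j : Set (Fin d → ℝ)))
    (fun i j => hconv i _ (e i j).2)
  refine ⟨fun i => (G i).image fun j => (e i j : Set (Fin d → ℝ)), fun i => ?_, fun i => ?_, E, hEm, hEv, ?_⟩
  · intro K hK
    obtain ⟨j, -, rfl⟩ := Finset.mem_image.mp hK
    exact (e i j).2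
  · have h1 : ((G i).image fun j => (e i j : Set (Fin d → ℝ))).card = (G i).card :=
      Finset.card_image_of_injective _ fun a b hab => (e i).injective (Subtype.val_injective hab)
    show c * (n : ℝ) ≤ (((G i).image fun j => (e i j : Set (Fin d → ℝ))).card : ℝ)
    rw [h1]
    exact hG i
  · intro K hK
    have h1 : ∀ i, ∃ j ∈ G i, (e i j : Set (Fin d → ℝ)) = K i := fun i => Finset.mem_image.mp (hK i)
    choose j hj hjK using h1
    have h2 := hE j hj
    have h3 : (⋃ i, K i) = ⋃ i, (e i (j i) : Set (Fin d → ℝ)) := by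
      simp only [hjK]
    rw [h3]
    exact h2

end Pool.Agent.Results.MP_9e4c5e_co.ColorfulSelection
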